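import Pool.Agent.W787.QC.Defs

/-!
# Project QC (MP_ab3195_an): the range of the bilaplacian is dense in C¹, compact support
-/

set_option autoImplicit false

open MeasureTheory Set Metric Filter Topology Real
open scoped ContDiff

noncomputable section

namespace Pool.Agent.W32.QC

open Pool.Agent.W787.QC

/-- the symbol of the bilaplacian -/
def NN (ξ : E) : ℝ := (2 * π * ‖ξ‖) ^ 4

theorem NN_nonneg (ξ : E) : 0 ≤ NN ξ := by unfold NN; positivity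

theorem NN_cont : Continuous NN := by unfold NN; fun_prop

theorem NN_pos {ξ : E} (h : ξ ≠ 0) : 0 < NN ξ := by
  unfold NN
  have : 0 < ‖ξ‖ := norm_pos_iff.2 h
  have := Real.pi_pos
  positivity

/-- the approximate solution -/
def hf (g : E → ℂ) (ε : ℝ) (ξ : E) : ℂ := g ξ * ((1 / (ε + NN ξ) : ℝ) : ℂ)

/-- the error -/
def kf (g : E → ℂ) (ε : ℝ) (ξ : E) : ℂ := g ξ * ((ε / (ε + NN ξ) : ℝ) : ℂ)

theorem norm_hf (g : E → ℂ) {ε : ℝ} (hε : 0 < ε) (ξ : E) :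
    ‖hf g ε ξ‖ = ‖g ξ‖ * (1 / (ε + NN ξ)) := by
  have := NN_nonneg ξ
  rw [hf, norm_mul, Complex.norm_real, Real.norm_of_nonneg (by positivity)]

theorem norm_kf (g : E → ℂ) {ε : ℝ} (hε : 0 < ε) (ξ : E) :
    ‖kf g ε ξ‖ = ‖g ξ‖ * (ε / (ε + NN ξ)) := by
  have := NN_nonneg ξ
  rw [kf, norm_mul, Complex.norm_real, Real.norm_of_nonneg (by positivity)]

theorem cont_hf {g : E → ℂ} (hg : Continuous g) {ε : ℝ} (hε : 0 < ε) : Continuous (hf g ε) := by
  unfold hf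
  refine hg.mul (Complex.continuous_ofReal.comp ?_)
  refine Continuous.div continuous_const (continuous_const.add NN_cont) fun ξ => ?_
  have := NN_nonneg ξ
  positivity

theorem cont_kf {g : E → ℂ} (hg : Continuous g) {ε : ℝ} (hε : 0 < ε) : Continuous (kf g ε) := by
  unfold kf
  refine hg.mul (Complex.continuous_ofReal.comp ?_)
  refine Continuous.div continuous_const (continuous_const.add NN_cont) fun ξ => ?_
  have := NN_nonneg ξ
  positivity

theorem mom_of_le {g h : E → ℂ} (hg : Mom g) (hc : Continuous h) (C : ℝ)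
    (hb : ∀ ξ, ‖h ξ‖ ≤ C * ‖g ξ‖) : Mom h := by
  refine ⟨hc, fun k => ?_⟩
  refine ((hg.2 k).const_mul C).mono' ?_ (Filter.Eventually.of_forall fun ξ => ?_)
  · exact (Continuous.mul (continuous_norm.pow k) hc.norm).aestronglyMeasurable
  · rw [Real.norm_of_nonneg (by positivity)]
    calc ‖ξ‖ ^ k * ‖h ξ‖ ≤ ‖ξ‖ ^ k * (C * ‖g ξ‖) :=
          mul_le_mul_of_nonneg_left (hb ξ) (by positivity)
      _ = C * (‖ξ‖ ^ k * ‖g ξ‖) := by ring

theorem mom_hf {g : E → ℂ} (hg : Mom g) {ε : ℝ} (hε : 0 < ε) : Mom (hf g ε) := by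
  refine mom_of_le hg (cont_hf hg.1 hε) (1 / ε) fun ξ => ?_
  have := NN_nonneg ξ
  rw [norm_hf g hε, mul_comm]
  refine mul_le_mul_of_nonneg_right ?_ (norm_nonneg _)
  exact one_div_le_one_div_of_le hε (by linarith)

theorem kle {ε : ℝ} (hε : 0 < ε) (ξ : E) : ε / (ε + NN ξ) ≤ 1 := by
  have := NN_nonneg ξ
  rw [div_le_one (by positivity)]
  linarith

theorem mom_kf {g : E → ℂ} (hg : Mom g) {ε : ℝ} (hε : 0 < ε) : Mom (kf g ε) := by
  refine mom_of_le hg (cont_kf hg.1 hε) 1 fun ξ => ?_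
  rw [norm_kf g hε, mul_comm]
  exact mul_le_mul_of_nonneg_right (kle hε ξ) (norm_nonneg _)

theorem Mom.int {g : E → ℂ} (hg : Mom g) : Integrable g := by
  have h := hg.2 0
  simp only [pow_zero, one_mul] at h
  exact (integrable_norm_iff hg.1.aestronglyMeasurable).1 h

theorem int_e {h : E → ℂ} (hh : Integrable h) (x : E) :
    Integrable (fun ξ => h ξ * Complex.exp (2 * π * Complex.I * ((inner ℝ ξ x : ℝ) : ℂ))) := by
  refine hh.norm.mono' (hh.1.mul ?_) (Filter.Eventually.of_forall fun ξ => ?_)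
  · apply Continuous.aestronglyMeasurable
    fun_prop
  · rw [norm_mul]
    have : ‖Complex.exp (2 * π * Complex.I * ((inner ℝ ξ x : ℝ) : ℂ))‖ = 1 := by
      have e : (2 * (π : ℂ) * Complex.I * ((inner ℝ ξ x : ℝ) : ℂ)) =
          ((2 * π * (inner ℝ ξ x : ℝ) : ℝ) : ℂ) * Complex.I := by
        push_cast; ring
      rw [e, Complex.norm_exp_ofReal_mul_I]
    rw [this, mul_one]

theorem FI_sub {g h k : E → ℂ} (hg : Integrable g) (hk : Integrable k)
    (he : ∀ ξ, h ξ = g ξ - k ξ) (x : E) : FI h x = FI g x - FI k x := by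
  unfold FI
  rw [← Complex.sub_re, ← integral_sub (int_e hg x) (int_e hk x)]
  congr 2
  funext ξ
  rw [he ξ]
  ring

theorem tend {g : E → ℂ} (hg : Mom g) (j : ℕ) :
    Tendsto (fun n : ℕ => ∫ ξ, ‖ξ‖ ^ j * ‖kf g (1 / ((n : ℝ) + 1)) ξ‖) atTop (𝓝 0) := by
  have h0 : (∫ _ : E, (0 : ℝ)) = 0 := integral_zero _ _
  rw [← h0]
  refine tendsto_integral_of_dominated_convergence (fun ξ => ‖ξ‖ ^ j * ‖g ξ‖) (fun n => ?_)
    (hg.2 j) (fun n => Filter.Eventually.of_forall fun ξ => ?_) ?_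
  · have hε : (0 : ℝ) < 1 / ((n : ℝ) + 1) := by positivity
    exact (Continuous.mul (continuous_norm.pow j) (cont_kf hg.1 hε).norm).aestronglyMeasurable
  · have hε : (0 : ℝ) < 1 / ((n : ℝ) + 1) := by positivity
    rw [Real.norm_of_nonneg (by positivity), norm_kf g hε]
    refine mul_le_mul_of_nonneg_left ?_ (by positivity)
    calc ‖g ξ‖ * (1 / ((n : ℝ) + 1) / (1 / ((n : ℝ) + 1) + NN ξ)) ≤ ‖g ξ‖ * 1 :=
          mul_le_mul_of_nonneg_left (kle hε ξ) (norm_nonneg _)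
      _ = ‖g ξ‖ := mul_one _
  · have hne : ∀ᵐ ξ : E, ξ ≠ 0 := by simp [ae_iff, measure_singleton]
    filter_upwards [hne] with ξ hξ
    have hN := NN_pos hξ
    have e1 : Tendsto (fun n : ℕ => 1 / ((n : ℝ) + 1)) atTop (𝓝 0) :=
      tendsto_one_div_add_atTop_nhds_zero_nat
    have e2 : Tendsto (fun n : ℕ => 1 / ((n : ℝ) + 1) / (1 / ((n : ℝ) + 1) + NN ξ)) atTop
        (𝓝 (0 / (0 + NN ξ))) := e1.div (e1.add_const _) (by rw [zero_add]; exact hN.ne')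
    have e3 : Tendsto (fun n : ℕ => ‖ξ‖ ^ j *
        (‖g ξ‖ * (1 / ((n : ℝ) + 1) / (1 / ((n : ℝ) + 1) + NN ξ)))) atTop
        (𝓝 (‖ξ‖ ^ j * (‖g ξ‖ * (0 / (0 + NN ξ))))) := (e2.const_mul _).const_mul _
    rw [zero_div, mul_zero, mul_zero] at e3
    refine e3.congr fun n => ?_
    have hε : (0 : ℝ) < 1 / ((n : ℝ) + 1) := by positivity
    rw [norm_kf g hε]

theorem den0 (ha : S_FA) (hb : S_FB) : S_DEN0 := by
  intro Φ hΦ hΦc δ hδ
  obtain ⟨g, hg, hgΦ⟩ := hb Φ hΦ hΦc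
  have hpi := Real.pi_pos
  have t0 := tend hg 0
  have t1 := tend hg 1
  have ev0 : ∀ᶠ n : ℕ in atTop, ∫ ξ, ‖ξ‖ ^ 0 * ‖kf g (1 / ((n : ℝ) + 1)) ξ‖ < δ :=
    t0.eventually (gt_mem_nhds hδ)
  have ev1 : ∀ᶠ n : ℕ in atTop, ∫ ξ, ‖ξ‖ ^ 1 * ‖kf g (1 / ((n : ℝ) + 1)) ξ‖ < δ / (2 * π) :=
    t1.eventually (gt_mem_nhds (by positivity))
  obtain ⟨n, hn0, hn1⟩ := (ev0.and ev1).exists
  set ε : ℝ := 1 / ((n : ℝ) + 1) with hεd
  have hε : 0 < ε := by positivity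
  obtain ⟨c1, c2, -, -⟩ := ha _ (mom_hf hg hε)
  obtain ⟨-, -, c3, c4⟩ := ha _ (mom_kf hg hε)
  have key : ∀ x, bil (FI (hf g ε)) x - Φ x = -(FI (kf g ε) x) := by
    intro x
    rw [c2 x, hgΦ x, FI_sub (Mom.int hg) (Mom.int (mom_kf hg hε)) (fun ξ => ?_) x]
    · ring
    · have hN := NN_nonneg ξ
      have hne : ((ε + NN ξ : ℝ) : ℂ) ≠ 0 := by
        have : ε + NN ξ ≠ 0 := by positivity
        exact_mod_cast this
      show ((NN ξ : ℝ) : ℂ) * hf g ε ξ = g ξ - kf g ε ξ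
      unfold hf kf
      push_cast at hne ⊢
      field_simp
      ring
  refine ⟨FI (hf g ε), c1, fun x => ⟨?_, ?_⟩⟩
  · rw [key x, abs_neg]
    refine (c3 x).trans ?_
    simp only [pow_zero, one_mul] at hn0
    exact hn0.le
  · have e : (fun y => bil (FI (hf g ε)) y - Φ y) = fun y => -(FI (kf g ε) y) := funext key
    rw [e, fderiv_fun_neg, norm_neg]
    refine (c4 x).trans ?_
    have e2 : ∫ ξ, 2 * π * ‖ξ‖ * ‖kf g ε ξ‖ = 2 * π * ∫ ξ, ‖ξ‖ ^ 1 * ‖kf g ε ξ‖ := by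
      rw [← integral_const_mul]
      refine integral_congr_ae (Filter.Eventually.of_forall fun ξ => ?_)
      simp only [pow_one]
      ring
    rw [e2]
    have h3 : 2 * π * (∫ ξ, ‖ξ‖ ^ 1 * ‖kf g ε ξ‖) ≤ 2 * π * (δ / (2 * π)) :=
      mul_le_mul_of_nonneg_left hn1.le (by positivity)
    refine h3.trans (le_of_eq ?_)
    field_simp

end Pool.Agent.W32.QC
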